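import Mathlib

/-!
# Shearer's inequality for families of finite sets 

PROOF. Induction on the ground set `U`. `U = ∅`: the family has at most one member; if it has one,
all traces have one member. Step `U = insert x U'`: `𝒜₀ = 𝒜.nonMemberSubfamily x`,
`𝒜₁ = 𝒜.memberSubfamily x` (families on `U'`), `|𝒜| = |𝒜₀| + |𝒜₁|`. For `i` with `x ∈ F i` the
trace of `𝒜` on `F i` has at least `a_i + b_i` members, with `a_i`, `b_i` the numbers of traces
of `𝒜₀`, `𝒜₁` on `F i` (equivalently on `F i \ {x}`); for the other `i` it has at least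
`max a_i b_i` members. By induction `|𝒜₀|^t ≤ ∏ a_i`, `|𝒜₁|^t ≤ ∏ b_i`. It remains to see, with
`c_i` the size of the trace of `𝒜`: `c_i ≥ a_i + b_i` for at least `t` indices,
`c_i ≥ max a_i b_i` for all, `p^t ≤ ∏ a_i`, `q^t ≤ ∏ b_i` imply `(p+q)^t ≤ ∏ c_i`.
By AM-GM over a set `T` of exactly `t` indices with `x ∈ F i`:
`(∏_T a_i/c_i)^(1/t) + (∏_T b_i/c_i)^(1/t) ≤ (1/t) Σ_T (a_i + b_i)/c_i ≤ 1`, and the factors with
`i` outside `T` are at most 1. (If some `c_i = 0` the family is empty. `t = 0`: all sizes are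
at least 1 unless the family is empty.)
-/

namespace Pool.Agent.BukhTail

open Finset

private lemma amgm {ι : Type*} (T : Finset ι) (hT : 0 < T.card) (u : ι → ℝ)
    (hu : ∀ i ∈ T, 0 ≤ u i) (x : ℝ) (hx : 0 ≤ x) (h : x ^ T.card ≤ ∏ i ∈ T, u i) :
    (T.card : ℝ) * x ≤ ∑ i ∈ T, u i := by
  have ht : (0:ℝ) < T.card := by exact_mod_cast hT
  have h1 := Real.geom_mean_le_arith_mean_weighted T (fun _ => (T.card : ℝ)⁻¹) u
    (fun i _ => by positivity) (by simp [ht.ne']) hu
  have h2 : x ≤ ∏ i ∈ T, u i ^ ((T.card : ℝ)⁻¹) := by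
    rw [Real.finsetProd_rpow T u hu]
    calc x = (x ^ T.card) ^ ((T.card : ℝ)⁻¹) := (Real.pow_rpow_inv_natCast hx hT.ne').symm
      _ ≤ _ := Real.rpow_le_rpow (by positivity) h (by positivity)
  have h3 : x ≤ ∑ i ∈ T, (T.card : ℝ)⁻¹ * u i := h2.trans h1
  rw [← Finset.mul_sum] at h3
  calc (T.card : ℝ) * x ≤ T.card * ((T.card : ℝ)⁻¹ * ∑ i ∈ T, u i) := by gcongr
    _ = _ := by field_simp

private lemma comb {ι : Type*} [DecidableEq ι] (I T : Finset ι) (hTI : T ⊆ I) (hT : 0 < T.card)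
    (a b c : ι → ℝ) (ha : ∀ i ∈ I, 0 ≤ a i) (hb : ∀ i ∈ I, 0 ≤ b i) (hc : ∀ i ∈ I, 0 < c i)
    (hac : ∀ i ∈ I, a i ≤ c i) (hbc : ∀ i ∈ I, b i ≤ c i) (habc : ∀ i ∈ T, a i + b i ≤ c i)
    (p q : ℝ) (hp : 0 ≤ p) (hq : 0 ≤ q) (hpa : p ^ T.card ≤ ∏ i ∈ I, a i)
    (hqb : q ^ T.card ≤ ∏ i ∈ I, b i) : (p + q) ^ T.card ≤ ∏ i ∈ I, c i := by
  have ht : (0:ℝ) < T.card := by exact_mod_cast hT
  obtain ⟨C, hC⟩ : ∃ C, C = ∏ i ∈ I, c i := ⟨_, rfl⟩
  have hCpos : 0 < C := hC ▸ Finset.prod_pos hc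
  obtain ⟨r, hr⟩ : ∃ r, r = C ^ ((T.card : ℝ)⁻¹) := ⟨_, rfl⟩
  have hrpos : 0 < r := hr ▸ Real.rpow_pos_of_pos hCpos _
  have hrC : r ^ T.card = C := hr ▸ Real.rpow_inv_natCast_pow hCpos.le hT.ne'
  have key : ∀ (a : ι → ℝ) (p : ℝ), (∀ i ∈ I, 0 ≤ a i) → (∀ i ∈ I, a i ≤ c i) → 0 ≤ p →
      p ^ T.card ≤ ∏ i ∈ I, a i → (T.card : ℝ) * (p / r) ≤ ∑ i ∈ T, a i / c i := by
    intro a p ha hac hp h
    refine amgm T hT _ (fun i hi => div_nonneg (ha i (hTI hi)) (hc i (hTI hi)).le) _
      (div_nonneg hp hrpos.le) ?_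
    rw [div_pow, hrC, div_le_iff₀ hCpos]
    refine h.trans ?_
    have e1 : ∏ i ∈ I, a i = (∏ i ∈ I \ T, a i) * ∏ i ∈ T, a i := (Finset.prod_sdiff hTI).symm
    have e2 : C = (∏ i ∈ I \ T, c i) * ∏ i ∈ T, c i := by rw [hC, Finset.prod_sdiff hTI]
    have e3 : (∏ i ∈ T, a i / c i) * ∏ i ∈ T, c i = ∏ i ∈ T, a i := by
      rw [← Finset.prod_mul_distrib]
      exact Finset.prod_congr rfl fun i hi => div_mul_cancel₀ _ (hc i (hTI hi)).ne'
    have e4 : ∏ i ∈ I \ T, a i ≤ ∏ i ∈ I \ T, c i :=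
      Finset.prod_le_prod (fun i hi => ha i (Finset.mem_sdiff.1 hi).1)
        (fun i hi => hac i (Finset.mem_sdiff.1 hi).1)
    have e5 : 0 ≤ ∏ i ∈ T, a i := Finset.prod_nonneg fun i hi => ha i (hTI hi)
    rw [e1, e2]
    calc (∏ i ∈ I \ T, a i) * ∏ i ∈ T, a i ≤ (∏ i ∈ I \ T, c i) * ∏ i ∈ T, a i := by gcongr
      _ = (∏ i ∈ I \ T, c i) * ((∏ i ∈ T, a i / c i) * ∏ i ∈ T, c i) := by rw [e3]
      _ = _ := by ring
  have k1 := key a p ha hac hp hpa
  have k2 := key b q hb hbc hq hqb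
  have k3 : ∑ i ∈ T, a i / c i + ∑ i ∈ T, b i / c i ≤ T.card := by
    rw [← Finset.sum_add_distrib]
    calc ∑ i ∈ T, (a i / c i + b i / c i) ≤ ∑ i ∈ T, (1 : ℝ) := by
          refine Finset.sum_le_sum fun i hi => ?_
          rw [← add_div, div_le_one (hc i (hTI hi))]
          exact habc i hi
      _ = T.card := by simp
  have k4 : (T.card : ℝ) * ((p + q) / r) ≤ T.card * 1 := by
    rw [add_div]; linarith
  have k5 : (p + q) / r ≤ 1 := le_of_mul_le_mul_left k4 ht
  rw [div_le_one hrpos] at k5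
  calc (p + q) ^ T.card ≤ r ^ T.card := pow_le_pow_left₀ (by positivity) k5 _
    _ = ∏ i ∈ I, c i := by rw [hrC, hC]

private lemma trace_le {α : Type*} [DecidableEq α] (A : Finset (Finset α)) (x : α)
    (G : Finset α) :
    ((A.memberSubfamily x).image fun S => S ∩ G).card ≤
      ((A.filter fun S => x ∈ S).image fun S => S ∩ G).card := by
  have h : ((A.memberSubfamily x).image fun S => S ∩ G) ⊆
      ((A.filter fun S => x ∈ S).image fun S => S ∩ G).image fun S => S.erase x := by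
    intro R hR
    simp only [Finset.mem_image, Finset.mem_memberSubfamily, Finset.mem_filter] at hR ⊢
    obtain ⟨S, ⟨hS, hx⟩, rfl⟩ := hR
    refine ⟨_, ⟨insert x S, ⟨hS, Finset.mem_insert_self x S⟩, rfl⟩, ?_⟩
    ext y
    simp only [Finset.mem_erase, Finset.mem_inter, Finset.mem_insert]
    constructor
    · rintro ⟨h1, h2 | h2, h3⟩
      · exact absurd h2 h1
      · exact ⟨h2, h3⟩
    · rintro ⟨h1, h2⟩
      exact ⟨fun h => hx (h ▸ h1), Or.inr h1, h2⟩
  exact (Finset.card_le_card h).trans Finset.card_image_le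

private lemma trace_add {α : Type*} [DecidableEq α] (A : Finset (Finset α)) (x : α)
    (G : Finset α) (hx : x ∈ G) :
    ((A.nonMemberSubfamily x).image fun S => S ∩ G).card +
      ((A.memberSubfamily x).image fun S => S ∩ G).card ≤ (A.image fun S => S ∩ G).card := by
  refine (Nat.add_le_add_left (trace_le A x G) _).trans ?_
  rw [← Finset.card_union_of_disjoint]
  · refine Finset.card_le_card ?_
    refine Finset.union_subset (Finset.image_subset_image ?_)
      (Finset.image_subset_image (Finset.filter_subset _ _))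
    exact Finset.filter_subset _ _
  · rw [Finset.disjoint_left]
    intro R h1 h2
    simp only [Finset.mem_image, Finset.mem_nonMemberSubfamily, Finset.mem_filter] at h1 h2
    obtain ⟨S, ⟨-, hS⟩, rfl⟩ := h1
    obtain ⟨S', ⟨-, hS'⟩, h⟩ := h2
    have : x ∈ S ∩ G := h ▸ Finset.mem_inter.2 ⟨hS', hx⟩
    exact hS (Finset.mem_inter.1 this).1

private lemma one_le_traces {α ι : Type*} [DecidableEq α] (A : Finset (Finset α))
    (hne : A.Nonempty) (I : Finset ι) (F : ι → Finset α) :
    1 ≤ ∏ i ∈ I, (A.image fun S => S ∩ F i).card :=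
  Finset.prod_pos fun _ _ => Finset.card_pos.2 (hne.image _)

/-- **Shearer's inequality** for set families: if every ground element lies in at least `t` of the
sets `F i`, then the `t`-th power of the size of the family is at most the product of the sizes of
its traces. -/
theorem shearer {α ι : Type*} [DecidableEq α] [DecidableEq ι] (U : Finset α)
    (A : Finset (Finset α)) (hA : ∀ S ∈ A, S ⊆ U) (hne : A.Nonempty) (I : Finset ι)
    (F : ι → Finset α) (t : ℕ) (ht : ∀ x ∈ U, t ≤ (I.filter fun i => x ∈ F i).card) :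
    A.card ^ t ≤ ∏ i ∈ I, (A.image fun S => S ∩ F i).card := by
  rcases Nat.eq_zero_or_pos t with rfl | htpos
  · simpa using one_le_traces A hne I F
  induction U using Finset.induction_on generalizing A with
  | empty =>
    have h1 : A.card ≤ 1 := by
      rw [Finset.card_le_one]
      intro S hS S' hS'
      rw [Finset.subset_empty.1 (hA S hS), Finset.subset_empty.1 (hA S' hS')]
    exact (Nat.pow_le_one_iff htpos.ne').2 h1 |>.trans (one_le_traces A hne I F)
  | insert x U hxU ih =>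
    have ht' : ∀ y ∈ U, t ≤ (I.filter fun i => y ∈ F i).card :=
      fun y hy => ht y (Finset.mem_insert_of_mem hy)
    have hsub0 : ∀ S ∈ A.nonMemberSubfamily x, S ⊆ U := by
      intro S hS
      rw [Finset.mem_nonMemberSubfamily] at hS
      exact (Finset.subset_insert_iff_of_notMem hS.2).1 (hA S hS.1)
    have hsub1 : ∀ S ∈ A.memberSubfamily x, S ⊆ U := by
      intro S hS
      rw [Finset.mem_memberSubfamily] at hS
      have := (Finset.subset_insert x S).trans (hA _ hS.1)
      exact (Finset.subset_insert_iff_of_notMem hS.2).1 this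
    have main : ∀ B : Finset (Finset α), (∀ S ∈ B, S ⊆ U) →
        B.card ^ t ≤ ∏ i ∈ I, (B.image fun S => S ∩ F i).card := by
      intro B hB
      rcases B.eq_empty_or_nonempty with rfl | hBne
      · simp [zero_pow htpos.ne']
      · exact ih B hB hBne ht'
    have m0 := main _ hsub0
    have m1 := main _ hsub1
    obtain ⟨T, hT, hTc⟩ := Finset.exists_subset_card_eq (ht x (Finset.mem_insert_self x U))
    have hTI : T ⊆ I := hT.trans (Finset.filter_subset _ _)
    have key := comb I T hTI (by omega)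
      (fun i => (((A.nonMemberSubfamily x).image fun S => S ∩ F i).card : ℝ))
      (fun i => (((A.memberSubfamily x).image fun S => S ∩ F i).card : ℝ))
      (fun i => ((A.image fun S => S ∩ F i).card : ℝ))
      (fun i _ => Nat.cast_nonneg _) (fun i _ => Nat.cast_nonneg _)
      (fun i _ => Nat.cast_pos.2 (Finset.card_pos.2 (hne.image _)))
      (fun i _ => Nat.cast_le.2 (Finset.card_le_card
        (Finset.image_subset_image (Finset.filter_subset _ _))))
      (fun i _ => Nat.cast_le.2 ((trace_le A x (F i)).trans (Finset.card_le_card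
        (Finset.image_subset_image (Finset.filter_subset _ _)))))
      (fun i hi => by
        have := trace_add A x (F i) (Finset.mem_filter.1 (hT hi)).2
        exact_mod_cast this)
      ((A.nonMemberSubfamily x).card : ℝ) ((A.memberSubfamily x).card : ℝ)
      (Nat.cast_nonneg _) (Nat.cast_nonneg _)
      (by rw [hTc]; exact_mod_cast m0) (by rw [hTc]; exact_mod_cast m1)
    rw [hTc] at key
    have hcard := Finset.card_memberSubfamily_add_card_nonMemberSubfamily x A
    have e : ((A.nonMemberSubfamily x).card : ℝ) + ((A.memberSubfamily x).card : ℝ)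
        = (A.card : ℝ) := by
      rw [add_comm]; exact_mod_cast hcard
    rw [e] at key
    exact_mod_cast key

end Pool.Agent.BukhTail
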